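import Pool.Agent.Helper44_SIQ.Frm

/-!
# MP_021b97_an, Q1, module CPT: forms and their components
-/

set_option autoImplicit false

open MeasureTheory Filter Topology

namespace Pool.Agent.SIQ.H44

open Pool.Agent.SIU Pool.Agent.SIQ

section general

variable {E F : Type} [NormedAddCommGroup E] [NormedSpace ℝ E] [NormedAddCommGroup F]
  [NormedSpace ℝ F]

theorem norm_alternatization_le {k : ℕ} (m : ContinuousMultilinearMap ℝ (fun _ : Fin k => E) ℝ) :
    ‖m.alternatization‖ ≤ k.factorial * ‖m‖ := by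
  refine ContinuousAlternatingMap.opNorm_le_bound _ (by positivity) fun v => ?_
  rw [ContinuousMultilinearMap.alternatization_apply_apply]
  have h1 : ‖∑ σ : Equiv.Perm (Fin k), Equiv.Perm.sign σ • m (v ∘ σ)‖ ≤
      ∑ σ : Equiv.Perm (Fin k), ‖m‖ * ∏ i, ‖v i‖ := by
    refine norm_sum_le_of_le _ fun σ _ => ?_
    have h2 : ‖Equiv.Perm.sign σ • m (v ∘ σ)‖ = ‖m (v ∘ σ)‖ := by
      rcases Int.units_eq_one_or (Equiv.Perm.sign σ) with h | h <;> rw [h] <;> simp
    rw [h2]
    refine (m.le_opNorm _).trans (le_of_eq ?_)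
    congr 1
    exact Equiv.prod_comp σ (fun i => ‖v i‖)
  rw [Finset.sum_const, Finset.card_univ, Fintype.card_perm, Fintype.card_fin, nsmul_eq_mul] at h1
  linarith

/-- projection of multilinear maps onto alternating maps -/
noncomputable def prj (k : ℕ) : ContinuousMultilinearMap ℝ (fun _ : Fin k => E) ℝ →L[ℝ]
    (E [⋀^Fin k]→L[ℝ] ℝ) :=
  LinearMap.mkContinuous
    { toFun := fun m => ((k.factorial : ℕ) : ℝ)⁻¹ • m.alternatization
      map_add' := fun a b => by rw [map_add, smul_add]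
      map_smul' := fun c a => by
        ext v
        simp only [ContinuousAlternatingMap.smul_apply, RingHom.id_apply,
          ContinuousMultilinearMap.alternatization_apply_apply,
          ContinuousMultilinearMap.smul_apply, smul_eq_mul]
        rw [mul_left_comm]
        congr 1
        rw [Finset.mul_sum]
        refine Finset.sum_congr rfl fun σ _ => ?_
        rw [Units.smul_def, Units.smul_def, zsmul_eq_mul, zsmul_eq_mul]
        ring } 1 (fun m => by
      have h := norm_alternatization_le m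
      have hk : (0 : ℝ) < (k.factorial : ℕ) := by exact_mod_cast Nat.factorial_pos k
      show ‖((k.factorial : ℕ) : ℝ)⁻¹ • m.alternatization‖ ≤ 1 * ‖m‖
      rw [norm_smul, norm_inv, Real.norm_of_nonneg hk.le, inv_mul_le_iff₀ hk]
      linarith)

theorem prj_apply {k : ℕ} (m : ContinuousMultilinearMap ℝ (fun _ : Fin k => E) ℝ)
    (v : Fin k → E) : prj k m v = ((k.factorial : ℕ) : ℝ)⁻¹ * m.alternatization v := rfl

theorem prj_alt {k : ℕ} (a : E [⋀^Fin k]→L[ℝ] ℝ) : prj k a.toContinuousMultilinearMap = a := by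
  ext v
  rw [prj_apply, ContinuousMultilinearMap.alternatization_apply_apply]
  have h : ∀ σ : Equiv.Perm (Fin k), Equiv.Perm.sign σ • a.toContinuousMultilinearMap (v ∘ σ) =
      a v := by
    intro σ
    have h1 : a.toContinuousMultilinearMap (v ∘ σ) = Equiv.Perm.sign σ • a v :=
      a.toAlternatingMap.map_perm v σ
    rw [h1, smul_smul]
    rcases Int.units_eq_one_or (Equiv.Perm.sign σ) with h | h <;> rw [h] <;> simp
  rw [Finset.sum_congr rfl fun σ _ => h σ, Finset.sum_const, Finset.card_univ, Fintype.card_perm,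
    Fintype.card_fin, nsmul_eq_mul]
  have hk : ((k.factorial : ℕ) : ℝ) ≠ 0 := by exact_mod_cast (Nat.factorial_pos k).ne'
  rw [inv_mul_cancel_left₀ hk]

theorem contDiff_compAlt {k : ℕ} {m : WithTop ℕ∞} :
    ContDiff ℝ m (fun p : (F [⋀^Fin k]→L[ℝ] ℝ) × (E →L[ℝ] F) =>
      p.1.compContinuousLinearMap p.2) := by
  have e : (fun p : (F [⋀^Fin k]→L[ℝ] ℝ) × (E →L[ℝ] F) => p.1.compContinuousLinearMap p.2) =
      fun p => prj k ((ContinuousMultilinearMap.compContinuousLinearMapContinuousMultilinear ℝ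
        (fun _ : Fin k => E) (fun _ => F) ℝ (fun _ => p.2))
        (ContinuousAlternatingMap.toContinuousMultilinearMapCLM ℝ p.1)) := by
    funext p
    rw [← prj_alt (p.1.compContinuousLinearMap p.2)]
    congr 1
  rw [e]
  refine (prj (E := E) k).contDiff.comp ?_
  refine ContDiff.clm_apply ?_ ?_
  · exact (ContinuousMultilinearMap.contDiff _).comp (contDiff_pi.2 fun _ => contDiff_snd)
  · exact (ContinuousLinearMap.contDiff _).comp contDiff_fst

theorem contDiffOn_compAlt {G : Type} [NormedAddCommGroup G] [NormedSpace ℝ G] {k : ℕ}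
    {m : WithTop ℕ∞} {s : Set G} {a : G → F [⋀^Fin k]→L[ℝ] ℝ} {L : G → E →L[ℝ] F}
    (ha : ContDiffOn ℝ m a s) (hL : ContDiffOn ℝ m L s) :
    ContDiffOn ℝ m (fun z => (a z).compContinuousLinearMap (L z)) s :=
  contDiff_compAlt.comp_contDiffOn (ha.prodMk hL)

end general

theorem vert_zero (z : E6) : X1.Vert z 0 := ⟨0, fun m => by simp⟩

/-- a form which kills vertical vectors depends only on the vectors modulo vertical ones -/
theorem alt_congr_vert {k : ℕ} {z : E6} {a : Alt 6 k}
    (ha : ∀ (v : Fin k → E6) (i : Fin k), X1.Vert z (v i) → a v = 0) {v v' : Fin k → E6}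
    (h : ∀ i, X1.Vert z (v i - v' i)) : a v = a v' := by
  classical
  have key : ∀ s : Finset (Fin k), a v = a (fun i => if i ∈ s then v' i else v i) := by
    intro s
    induction s using Finset.induction_on with
    | empty => simp
    | insert j s hj ih =>
      rw [ih]
      set w : Fin k → E6 := fun i => if i ∈ s then v' i else v i with hw
      have e1 : w = Function.update w j (v j) := by
        rw [eq_comm, Function.update_eq_self_iff, hw]
        simp [hj]
      have e2 : (fun i => if i ∈ insert j s then v' i else v i) = Function.update w j (v' j) := by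
        funext i
        by_cases hij : i = j
        · subst hij; simp
        · rw [Function.update_of_ne hij, hw]
          simp [hij]
      rw [e2]
      conv_lhs => rw [e1]
      rw [← sub_eq_zero, ← a.map_update_sub]
      refine ha _ j ?_
      rw [Function.update_self]
      exact h j
  have := key Finset.univ
  simpa using this

theorem eqv_cmp {k : ℕ} {β : E6 → Alt 6 k} (hb : X1.BasicOn X1.U β) : Eqv (cmp β) := by
  intro z hz c hc
  ext v
  have h1 := hb.1 z hz c hc (fun i => fE z (rot3 (fun j => (starRingEnd ℂ) (c j) / c j) (v i)))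
  have h2 : (fun i => fE (X1.act c z) (v i)) = fun i =>
      X1.act c (fE z (rot3 (fun j => (starRingEnd ℂ) (c j) / c j) (v i))) := by
    funext i; exact fE_act hc z (v i)
  show β (X1.act c z) (fun i => fE (X1.act c z) (v i)) =
    β z (fun i => fE z (rot3 (fun j => (starRingEnd ℂ) (c j) / c j) (v i)))
  rw [h2, h1]

theorem eq_cmp {k : ℕ} {β : E6 → Alt 6 k} (hb : X1.BasicOn X1.U β) {z : E6} (hz : z ∈ X1.U) :
    β z = (cmp β z).compContinuousLinearMap ((fl z).restrictScalars ℝ) := by
  ext v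
  show β z v = β z (fun i => fE z (fl z (v i)))
  exact alt_congr_vert (fun v i h => hb.2 z hz v i h) (fun i => vert_sub hz (v i))

theorem ofc_apply {k : ℕ} (Ψ : E6 → Alt 3 k) {z : E6} (hz : z ∈ X1.U) :
    ofc Ψ z = (Ψ z).compContinuousLinearMap ((fl z).restrictScalars ℝ) := by
  unfold ofc
  rw [if_pos hz]

theorem basic_ofc {k : ℕ} {Ψ : E6 → Alt 3 k} (h : Eqv Ψ) : X1.BasicOn X1.U (ofc Ψ) := by
  refine ⟨fun z hz c hc v => ?_, fun z hz v i hv => ?_⟩
  · rw [ofc_apply Ψ hz, ofc_apply Ψ ((act1_mem_U hc z).mpr hz), h z hz c hc]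
    show Ψ z (fun i => rot3 (fun j => (starRingEnd ℂ) (c j) / c j)
      (fl (X1.act c z) (X1.act c (v i)))) = Ψ z (fun i => fl z (v i))
    congr 1
    funext i
    rw [fl_act hc z (v i)]
    funext j
    have h1 := hc j
    have h2 : (starRingEnd ℂ) (c j) ≠ 0 := by simpa using h1
    rw [rot3_apply, rot3_apply]
    field_simp
  · rw [ofc_apply Ψ hz]
    show Ψ z (fun i => fl z (v i)) = 0
    exact (Ψ z).map_coord_zero i (fl_vert hv)

theorem cmp_ofc {k : ℕ} (Ψ : E6 → Alt 3 k) {z : E6} (hz : z ∈ X1.U) : cmp (ofc Ψ) z = Ψ z := by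
  unfold cmp
  rw [ofc_apply Ψ hz]
  ext v
  show Ψ z (fun i => fl z (fE z (v i))) = Ψ z v
  congr 1
  funext i
  exact fl_fE hz (v i)

theorem cmp_gs {k : ℕ} (g : E6) (β : E6 → Alt 6 k) (z : E6) : cmp (gs g β) z = cmp β (qm g z) := by
  ext v
  show β (qm g z) (fun i => qmL g (fE z (v i))) = β (qm g z) (fun i => fE (qm g z) (v i))
  congr 1
  funext i
  rw [qmL_apply, fE_qm]

theorem cmp_nz {k : ℕ} {β : E6 → Alt 6 k} (hb : X1.BasicOn X1.U β) {z : E6} (hz : z ∈ X1.U) :
    cmp β z = cmp β (nz z) := by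
  have h := eqv_cmp hb z hz (fun i => (((√(nn z i))⁻¹ : ℝ) : ℂ)) (nz_coef hz)
  show cmp β z = cmp β (X1.act (fun i => (((√(nn z i))⁻¹ : ℝ) : ℂ)) z)
  rw [h]
  ext v
  show cmp β z v = cmp β z (fun i => rot3 (fun j => (starRingEnd ℂ)
    ((((√(nn z j))⁻¹ : ℝ) : ℂ)) / (((√(nn z j))⁻¹ : ℝ) : ℂ)) (v i))
  congr 1
  funext i j
  rw [rot3_apply, Complex.conj_ofReal, div_self (nz_coef hz j), one_mul]

/-- CPT -/
theorem cpt : CptStmt := by
  refine ⟨fun k β hb => ⟨eqv_cmp hb, fun z hz => eq_cmp hb hz⟩,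
    fun k Ψ h => ⟨basic_ofc h, fun z hz => cmp_ofc Ψ hz⟩, fun k m β hβ => ?_, fun k m Ψ hΨ => ?_,
    fun k g β z => cmp_gs g β z, fun Q hQ hQU k => ?_, fun k β hb z hz => cmp_nz hb hz⟩
  · exact contDiffOn_compAlt hβ (smooth_fE m).contDiffOn
  · refine (contDiffOn_compAlt hΨ (smooth_fl m)).congr fun z hz => ?_
    exact ofc_apply Ψ hz
  · have c1 : ContinuousOn (fun z : E6 => ‖(fl z).restrictScalars ℝ‖ ^ k) Q :=
      (((smooth_fl 0).continuousOn).mono hQU).norm.pow k
    have c2 : ContinuousOn (fun z : E6 => ‖(fE z).restrictScalars ℝ‖ ^ k) Q :=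
      ((smooth_fE 0).continuous.continuousOn).norm.pow k
    obtain ⟨C1, hC1⟩ := hQ.exists_bound_of_continuousOn c1
    obtain ⟨C2, hC2⟩ := hQ.exists_bound_of_continuousOn c2
    refine ⟨max (max C1 C2) 0, le_max_right _ _, fun β hb z hz => ⟨?_, ?_⟩⟩
    · have h1 := ContinuousAlternatingMap.norm_compContinuousLinearMap_le (cmp β z)
        ((fl z).restrictScalars ℝ)
      rw [← eq_cmp hb (hQU hz), Fintype.card_fin, cmp_nz hb (hQU hz)] at h1
      have h2 := hC1 z hz
      rw [Real.norm_of_nonneg (by positivity)] at h2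
      have h3 : ‖(fl z).restrictScalars ℝ‖ ^ k ≤ max (max C1 C2) 0 :=
        h2.trans ((le_max_left _ _).trans (le_max_left _ _))
      calc ‖β z‖ ≤ ‖cmp β (nz z)‖ * ‖(fl z).restrictScalars ℝ‖ ^ k := h1
        _ ≤ ‖cmp β (nz z)‖ * max (max C1 C2) 0 :=
            mul_le_mul_of_nonneg_left h3 (norm_nonneg _)
        _ = _ := mul_comm _ _
    · have h1 := ContinuousAlternatingMap.norm_compContinuousLinearMap_le (β z)
        ((fE z).restrictScalars ℝ)
      rw [Fintype.card_fin] at h1
      have h2 := hC2 z hz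
      rw [Real.norm_of_nonneg (by positivity)] at h2
      have h3 : ‖(fE z).restrictScalars ℝ‖ ^ k ≤ max (max C1 C2) 0 :=
        h2.trans ((le_max_right _ _).trans (le_max_left _ _))
      calc ‖cmp β z‖ ≤ ‖β z‖ * ‖(fE z).restrictScalars ℝ‖ ^ k := h1
        _ ≤ ‖β z‖ * max (max C1 C2) 0 := mul_le_mul_of_nonneg_left h3 (norm_nonneg _)
        _ = _ := mul_comm _ _

end Pool.Agent.SIQ.H44
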