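import Pool.Agent.Helper15_SIQ.Stmts

/-!
# MP_021b97_an, Q1, module FRM: the frame
-/

set_option autoImplicit false

open MeasureTheory Filter Topology

namespace Pool.Agent.SIQ.H44

open Pool.Agent.SIU Pool.Agent.SIQ

theorem nnC (z : E6) (i : Fin 3) : (nn z i : ℂ) =
    z (lo i) * (starRingEnd ℂ) (z (lo i)) + z (hi i) * (starRingEnd ℂ) (z (hi i)) := by
  rw [Complex.mul_conj, Complex.mul_conj, Complex.normSq_eq_norm_sq, Complex.normSq_eq_norm_sq]
  unfold nn
  push_cast
  rfl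

theorem nnC_ne {z : E6} (hz : z ∈ X1.U) (i : Fin 3) : (nn z i : ℂ) ≠ 0 := by
  exact_mod_cast ((mem_U1' z).mp hz i).ne'

theorem nnC_qm (g z : E6) (i : Fin 3) : (nn (qm g z) i : ℂ) = (nn g i : ℂ) * (nn z i : ℂ) := by
  rw [nnC, nnC, nnC, qm_lo, qm_hi]
  simp only [map_sub, map_add, map_mul, Complex.conj_conj]
  ring

theorem inc1_lo (d : C3) (i : Fin 3) : inc1 d (lo i) = d i := by
  rw [inc1_eq]; fin_cases i <;> rfl

theorem inc1_hi (d : C3) (i : Fin 3) : inc1 d (hi i) = 0 := by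
  rw [inc1_eq]; fin_cases i <;> rfl

theorem fl_fE {z : E6} (hz : z ∈ X1.U) (c : C3) : fl z (fE z c) = c := by
  funext i
  rw [fl_apply, fE_lo, fE_hi]
  have h := nnC_ne hz i
  have h2 := nnC z i
  have : z (lo i) * ((starRingEnd ℂ) (z (lo i)) * c i) -
      z (hi i) * (-(starRingEnd ℂ) (z (hi i)) * c i) = (nn z i : ℂ) * c i := by
    rw [h2]; ring
  rw [this, inv_mul_cancel_left₀ h]

theorem vert_sub {z : E6} (hz : z ∈ X1.U) (v : E6) : X1.Vert z (v - fE z (fl z v)) := by
  rw [vert1_iff]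
  refine ⟨fun i => (nn z i : ℂ)⁻¹ * ((starRingEnd ℂ) (z (lo i)) * v (lo i) +
    (starRingEnd ℂ) (z (hi i)) * v (hi i)), ?_⟩
  apply ext6
  · intro i
    have h := nnC_ne hz i
    have h2 := nnC z i
    rw [act1_lo]
    show v (lo i) - fE z (fl z v) (lo i) = _
    rw [fE_lo, fl_apply]
    field_simp
    rw [h2]
    ring
  · intro i
    have h := nnC_ne hz i
    have h2 := nnC z i
    rw [act1_hi]
    show v (hi i) - fE z (fl z v) (hi i) = _
    rw [fE_hi, fl_apply]
    field_simp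
    rw [h2]
    ring

theorem fl_vert {z v : E6} (h : X1.Vert z v) : fl z v = 0 := by
  obtain ⟨a, rfl⟩ := (vert1_iff z v).mp h
  funext i
  rw [fl_apply, act1_lo, act1_hi]
  show _ = (0 : ℂ)
  ring

theorem nnC_act (c : C3) (z : E6) (i : Fin 3) : (nn (X1.act c z) i : ℂ) =
    c i * (starRingEnd ℂ) (c i) * (nn z i : ℂ) := by
  rw [nnC, nnC, act1_lo, act1_hi, map_mul, map_mul]
  ring

theorem fl_act {c : C3} (hc : ∀ j, c j ≠ 0) (z v : E6) : fl (X1.act c z) (X1.act c v) =
    rot3 (fun j => c j / (starRingEnd ℂ) (c j)) (fl z v) := by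
  funext i
  have h1 := hc i
  have h2 : (starRingEnd ℂ) (c i) ≠ 0 := by simpa using h1
  rw [rot3_apply, fl_apply, fl_apply, nnC_act, act1_lo, act1_hi, act1_lo, act1_hi, mul_inv,
    mul_inv]
  field_simp

theorem fE_act {c : C3} (hc : ∀ j, c j ≠ 0) (z : E6) (d : C3) : fE (X1.act c z) d =
    X1.act c (fE z (rot3 (fun j => (starRingEnd ℂ) (c j) / c j) d)) := by
  apply ext6
  · intro i
    have h1 := hc i
    rw [fE_lo, act1_lo, act1_hi, fE_lo, rot3_apply, map_mul]
    field_simp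
  · intro i
    have h1 := hc i
    rw [fE_hi, act1_hi, act1_lo, fE_hi, rot3_apply, map_mul]
    field_simp

theorem fE_qm (g z : E6) (d : C3) : fE (qm g z) d = qm g (fE z d) := by
  apply ext6
  · intro i
    rw [fE_lo, qm_lo, fE_lo, fE_hi, qm_hi]
    simp only [map_add, map_mul, Complex.conj_conj]
    ring
  · intro i
    rw [fE_hi, qm_hi, fE_lo, fE_hi, qm_lo]
    simp only [map_sub, map_mul, Complex.conj_conj]
    ring

theorem fl_qm {g : E6} (hg : g ∈ X1.U) (z v : E6) : fl (qm g z) (qm g v) = fl z v := by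
  funext i
  have h := nnC_ne hg i
  have h2 := nnC g i
  rw [fl_apply, fl_apply, nnC_qm, qm_lo, qm_hi, qm_lo, qm_hi, mul_inv]
  have : (g (lo i) * z (lo i) - (starRingEnd ℂ) (g (hi i)) * z (hi i)) *
      (g (hi i) * v (lo i) + (starRingEnd ℂ) (g (lo i)) * v (hi i)) -
      (g (hi i) * z (lo i) + (starRingEnd ℂ) (g (lo i)) * z (hi i)) *
      (g (lo i) * v (lo i) - (starRingEnd ℂ) (g (hi i)) * v (hi i)) =
      (nn g i : ℂ) * (z (lo i) * v (hi i) - z (hi i) * v (lo i)) := by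
    rw [h2]; ring
  rw [this]
  field_simp

theorem contDiff_conj {m : WithTop ℕ∞} {F : Type} [NormedAddCommGroup F] [NormedSpace ℝ F]
    {f : F → ℂ} (hf : ContDiff ℝ m f) : ContDiff ℝ m (fun x => (starRingEnd ℂ) (f x)) :=
  Complex.conjCLE.contDiff.comp hf

theorem contDiff_coord {m : WithTop ℕ∞} (j : Fin 6) : ContDiff ℝ m (fun z : E6 => z j) :=
  contDiff_apply ℝ ℂ j

theorem smooth_fE (m : ℕ∞) : ContDiff ℝ m (fun z : E6 => (fE z).restrictScalars ℝ) := by
  rw [contDiff_clm_apply_iff]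
  intro c
  rw [contDiff_pi]
  intro j
  obtain ⟨i, rfl | rfl⟩ := blocks j
  · have e : (fun z : E6 => ((fE z).restrictScalars ℝ) c (lo i)) =
        fun z : E6 => - (starRingEnd ℂ) (z (hi i)) * c i := by
      funext z; exact fE_lo z c i
    rw [e]
    exact (contDiff_conj (contDiff_coord (hi i))).neg.mul contDiff_const
  · have e : (fun z : E6 => ((fE z).restrictScalars ℝ) c (hi i)) =
        fun z : E6 => (starRingEnd ℂ) (z (lo i)) * c i := by
      funext z; exact fE_hi z c i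
    rw [e]
    exact (contDiff_conj (contDiff_coord (lo i))).mul contDiff_const

theorem smooth_nnC {m : WithTop ℕ∞} (i : Fin 3) : ContDiff ℝ m (fun z : E6 => (nn z i : ℂ)) := by
  have e : (fun z : E6 => (nn z i : ℂ)) = fun z : E6 =>
      z (lo i) * (starRingEnd ℂ) (z (lo i)) + z (hi i) * (starRingEnd ℂ) (z (hi i)) := by
    funext z; exact nnC z i
  rw [e]
  exact ((contDiff_coord (lo i)).mul (contDiff_conj (contDiff_coord (lo i)))).add
    ((contDiff_coord (hi i)).mul (contDiff_conj (contDiff_coord (hi i))))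

theorem smooth_fl (m : ℕ∞) :
    ContDiffOn ℝ m (fun z : E6 => (fl z).restrictScalars ℝ) X1.U := by
  rw [contDiffOn_clm_apply]
  intro v
  rw [contDiffOn_pi]
  intro i
  have e : (fun z : E6 => ((fl z).restrictScalars ℝ) v i) =
      fun z : E6 => (nn z i : ℂ)⁻¹ * (z (lo i) * v (hi i) - z (hi i) * v (lo i)) := by
    funext z; exact fl_apply z v i
  rw [e]
  refine ContDiffOn.mul ?_ ?_
  · exact (smooth_nnC i).contDiffOn.inv fun z hz => nnC_ne hz i
  · exact (((contDiff_coord (lo i)).mul contDiff_const).sub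
      ((contDiff_coord (hi i)).mul contDiff_const)).contDiffOn

/-- FRM -/
theorem frm : FrmStmt := by
  refine ⟨fun z hz c => fl_fE hz c, fun z hz v => vert_sub hz v, fun z v h => fl_vert h,
    fun c hc z v => fl_act hc z v, fun c hc z d => fE_act hc z d, fun g z d => fE_qm g z d,
    fun g hg z v => fl_qm hg z v, smooth_fE, smooth_fl, fun x d => ?_⟩
  funext i
  rw [fl_apply, sigma1_lo, sigma1_hi, inc1_lo, inc1_hi, nn_sigma]
  rw [mul_zero, zero_sub, one_mul, div_eq_inv_mul]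

end Pool.Agent.SIQ.H44
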